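import Pool.Agent.H21.L.R_seed8.W401.Cheb.Frob

/-! Extensions of a homomorphism from the ring of integers of `K` to a prime field to the ring of
integers of an extension `F`, counted by the embeddings of `F` fixed by a Frobenius element. -/

set_option autoImplicit false

namespace Pool.Agent.W353.NF

open NumberField IsDedekindDomain Filter Pool.Agent.W401.Cheb
open scoped Pointwise

section
variable {K F : Type} [Field K] [NumberField K] [Field F] [NumberField F] [Algebra K F]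

/-- an embedding on the rings of integers -/
noncomputable def oi (i : F →ₐ[K] AlgebraicClosure K) : 𝓞 F →+* 𝓞 (AlgebraicClosure K) :=
  RingOfIntegers.mapRingHom (i : F →+* AlgebraicClosure K)

theorem oi_coe (i : F →ₐ[K] AlgebraicClosure K) (a : 𝓞 F) :
    ((oi i a : 𝓞 (AlgebraicClosure K)) : AlgebraicClosure K) = i (a : F) := rfl

theorem oi_alg (i : F →ₐ[K] AlgebraicClosure K) (a : 𝓞 K) :
    oi i (algebraMap (𝓞 K) (𝓞 F) a) = algebraMap (𝓞 K) (𝓞 (AlgebraicClosure K)) a := by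
  apply RingOfIntegers.ext
  rw [oi_coe]
  exact i.commutes (a : K)

theorem smul_oi (σ : GK K) (i : F →ₐ[K] AlgebraicClosure K) (a : 𝓞 F) :
    σ • oi i a = oi ((σ : AlgebraicClosure K →ₐ[K] AlgebraicClosure K).comp i) a := rfl

/-- separation of two embeddings -/
theorem separate {i j : F →ₐ[K] AlgebraicClosure K} (hij : i ≠ j) :
    ∃ e : 𝓞 K, e ≠ 0 ∧ ∀ Q : Ideal (𝓞 (AlgebraicClosure K)),
      algebraMap (𝓞 K) (𝓞 (AlgebraicClosure K)) e ∉ Q → ∃ a : 𝓞 F, oi i a - oi j a ∉ Q := by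
  have h1 : ∃ a : 𝓞 F, oi i a ≠ oi j a := by
    by_contra h
    push Not at h
    apply hij
    ext x
    obtain ⟨a, b, hb, rfl⟩ := IsFractionRing.div_surjective (A := 𝓞 F) x
    rw [map_div₀, map_div₀]
    have e1 : ∀ c : 𝓞 F, i (algebraMap (𝓞 F) F c) = j (algebraMap (𝓞 F) F c) := fun c =>
      congrArg (fun z : 𝓞 (AlgebraicClosure K) => (z : AlgebraicClosure K)) (h c)
    rw [e1, e1]
  obtain ⟨a, ha⟩ := h1
  have h2 : oi i a - oi j a ≠ 0 := sub_ne_zero.2 ha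
  have h3 : IsAlgebraic (𝓞 K) (oi i a - oi j a) :=
    (Algebra.IsIntegral.isIntegral (R := 𝓞 K) (oi i a - oi j a)).isAlgebraic
  obtain ⟨r, hr, hd⟩ := h3.exists_nonzero_dvd (mem_nonZeroDivisors_of_ne_zero h2)
  refine ⟨r, hr, fun Q hQ => ⟨a, fun h => hQ ?_⟩⟩
  exact Q.mem_of_dvd hd h

variable (K F) in
/-- simultaneous separation -/
theorem separate_all : ∃ e : 𝓞 K, e ≠ 0 ∧ ∀ Q : Ideal (𝓞 (AlgebraicClosure K)),
      algebraMap (𝓞 K) (𝓞 (AlgebraicClosure K)) e ∉ Q →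
      ∀ i j : F →ₐ[K] AlgebraicClosure K, (∀ a : 𝓞 F, oi i a - oi j a ∈ Q) → i = j := by
  classical
  have h : ∀ x : (F →ₐ[K] AlgebraicClosure K) × (F →ₐ[K] AlgebraicClosure K), ∃ e : 𝓞 K,
      e ≠ 0 ∧ (x.1 ≠ x.2 → ∀ Q : Ideal (𝓞 (AlgebraicClosure K)),
      algebraMap (𝓞 K) (𝓞 (AlgebraicClosure K)) e ∉ Q → ∃ a : 𝓞 F,
        oi x.1 a - oi x.2 a ∉ Q) := by
    intro x
    by_cases hx : x.1 = x.2
    · exact ⟨1, one_ne_zero, fun h => absurd hx h⟩
    · obtain ⟨e, he, h⟩ := separate hx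
      exact ⟨e, he, fun _ => h⟩
  choose e he h using h
  refine ⟨∏ x, e x, Finset.prod_ne_zero_iff.2 fun x _ => he x, fun Q hQ i j hij => ?_⟩
  by_contra hne
  obtain ⟨a, ha⟩ := h (i, j) hne Q (fun h1 => hQ (by
    refine Q.mem_of_dvd ?_ h1
    exact map_dvd _ (Finset.dvd_prod_of_mem e (Finset.mem_univ (i, j)))))
  exact ha (hij a)

theorem absNorm_ker {v : HeightOneSpectrum (𝓞 K)} {p : ℕ} [Fact p.Prime] (φ : 𝓞 K →+* ZMod p)
    (hφ : RingHom.ker φ = v.asIdeal) : Ideal.absNorm v.asIdeal = p := by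
  rw [← hφ, Ideal.absNorm_apply, Submodule.cardQuot_apply]
  have e : (𝓞 K ⧸ RingHom.ker φ) ≃+* ZMod p :=
    RingHom.quotientKerEquivOfSurjective (ZMod.ringHom_surjective φ)
  rw [Nat.card_congr e.toEquiv, Nat.card_zmod]

/-- a prime above the kernel of a homomorphism, and the embedding inducing it -/
theorem exists_emb {v : HeightOneSpectrum (𝓞 K)} {Q : Ideal (𝓞 (AlgebraicClosure K))}
    (hQm : Q.IsMaximal)
    (hQv : Q.comap (algebraMap (𝓞 K) (𝓞 (AlgebraicClosure K))) = v.asIdeal)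
    {p : ℕ} [Fact p.Prime] {φ : 𝓞 K →+* ZMod p} (hφ : RingHom.ker φ = v.asIdeal)
    (ψ : 𝓞 F →+* ZMod p) (hψ : ψ.comp (algebraMap (𝓞 K) (𝓞 F)) = φ) :
    ∃ i : F →ₐ[K] AlgebraicClosure K, ∀ a : 𝓞 F, oi i a ∈ Q ↔ ψ a = 0 := by
  classical
  have : SMulCommClass (GK K) (𝓞 K) (𝓞 (AlgebraicClosure K)) := Pool.Agent.W401.Frob.smulComm
  have : Algebra.IsInvariant (𝓞 K) (𝓞 (AlgebraicClosure K)) (GK K) := Pool.Agent.W401.Frob.isInv
  let _ : TopologicalSpace (𝓞 (AlgebraicClosure K)) := ⊥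
  have : DiscreteTopology (𝓞 (AlgebraicClosure K)) := ⟨rfl⟩
  have : ContinuousSMul (GK K) (𝓞 (AlgebraicClosure K)) := by
    rw [continuousSMul_iff_stabilizer_isOpen]
    intro x
    have h1 := stabilizer_isOpen_of_isIntegral (K := K) (x : AlgebraicClosure K)
    convert h1 using 2
    ext g
    rw [MulAction.mem_stabilizer_iff, MulAction.mem_stabilizer_iff]
    constructor
    · intro h
      exact congrArg (fun z : (𝓞 (AlgebraicClosure K)) => (z : AlgebraicClosure K)) h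
    · intro h
      exact RingOfIntegers.ext h
  have hfd : FiniteDimensional K F := inferInstance
  let i0 : F →ₐ[K] AlgebraicClosure K := IsAlgClosed.lift
  have hi0 : Function.Injective (oi i0) := by
    intro a b hab
    apply RingOfIntegers.ext
    exact (i0 : F →+* AlgebraicClosure K).injective
      (congrArg (fun z : 𝓞 (AlgebraicClosure K) => (z : AlgebraicClosure K)) hab)
  have hkm : (RingHom.ker ψ).IsMaximal :=
    RingHom.ker_isMaximal_of_surjective ψ (ZMod.ringHom_surjective ψ)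
  obtain ⟨Q', hQm', hQ'⟩ : ∃ Q' : Ideal (𝓞 (AlgebraicClosure K)), Q'.IsMaximal ∧
      Q'.comap (oi i0) = RingHom.ker ψ := by
    let _ : Algebra (𝓞 F) (𝓞 (AlgebraicClosure K)) := (oi i0).toAlgebra
    have hint : Algebra.IsIntegral (𝓞 F) (𝓞 (AlgebraicClosure K)) := by
      refine ⟨fun x => ?_⟩
      have hx : IsIntegral ℤ x := Algebra.IsIntegral.isIntegral x
      exact hx.tower_top
    exact Ideal.exists_ideal_over_maximal_of_isIntegral (RingHom.ker ψ) (by
      have h1 : RingHom.ker (algebraMap (𝓞 F) (𝓞 (AlgebraicClosure K))) = ⊥ :=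
        (RingHom.injective_iff_ker_eq_bot _).1 hi0
      rw [h1]
      exact bot_le)
  have hund : Q'.comap (algebraMap (𝓞 K) (𝓞 (AlgebraicClosure K))) =
      Q.comap (algebraMap (𝓞 K) (𝓞 (AlgebraicClosure K))) := by
    rw [hQv, ← hφ]
    ext a
    rw [Ideal.mem_comap, RingHom.mem_ker, ← hψ, RingHom.comp_apply, ← RingHom.mem_ker, ← hQ',
      Ideal.mem_comap, oi_alg]
  obtain ⟨g, hg⟩ := Algebra.IsInvariant.exists_smul_of_under_eq_of_profinite (A := 𝓞 K)
    (G := GK K) Q' Q hund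
  refine ⟨(g : AlgebraicClosure K →ₐ[K] AlgebraicClosure K).comp i0, fun a => ?_⟩
  rw [← smul_oi, hg]
  have h1 : g • oi i0 a ∈ g • Q' ↔ oi i0 a ∈ Q' := by
    rw [Ideal.mem_pointwise_smul_iff_inv_smul_mem, inv_smul_smul]
  rw [h1, ← Ideal.mem_comap, hQ', RingHom.mem_ker]

/-- **The count.** -/
theorem card_ext (v : HeightOneSpectrum (𝓞 K)) (e : 𝓞 K)
    (he : ∀ Q : Ideal (𝓞 (AlgebraicClosure K)),
      algebraMap (𝓞 K) (𝓞 (AlgebraicClosure K)) e ∉ Q →
      ∀ i j : F →ₐ[K] AlgebraicClosure K, (∀ a : 𝓞 F, oi i a - oi j a ∈ Q) → i = j)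
    (hev : e ∉ v.asIdeal) (σ : GK K) (hσ : IsFrob v σ) {p : ℕ} [Fact p.Prime]
    (φ : 𝓞 K →+* ZMod p) (hφ : RingHom.ker φ = v.asIdeal) :
    Nat.card {i : F →ₐ[K] AlgebraicClosure K //
      (σ : AlgebraicClosure K →ₐ[K] AlgebraicClosure K).comp i = i} =
    Nat.card {ψ : 𝓞 F →+* ZMod p // ψ.comp (algebraMap (𝓞 K) (𝓞 F)) = φ} := by
  classical
  obtain ⟨Q, hQm, hQv, hQ⟩ := hσ
  rw [absNorm_ker φ hφ] at hQ
  let _ : Field (𝓞 (AlgebraicClosure K) ⧸ Q) := Ideal.Quotient.field Q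
  have hpv : (p : 𝓞 K) ∈ v.asIdeal := by
    rw [← hφ, RingHom.mem_ker, map_natCast]
    exact ZMod.natCast_self _
  have hpQ : (p : 𝓞 (AlgebraicClosure K)) ∈ Q := by
    rw [← hQv, Ideal.mem_comap, map_natCast] at hpv
    exact hpv
  have hpk : ((p : ℕ) : 𝓞 (AlgebraicClosure K) ⧸ Q) = 0 := by
    have := Ideal.Quotient.eq_zero_iff_mem.2 hpQ
    simpa using this
  have hchar : CharP (𝓞 (AlgebraicClosure K) ⧸ Q) p := by
    obtain ⟨c, hc⟩ := CharP.exists (𝓞 (AlgebraicClosure K) ⧸ Q)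
    have h1 : c ∣ p := (CharP.cast_eq_zero_iff (𝓞 (AlgebraicClosure K) ⧸ Q) c p).1 hpk
    rcases (Nat.dvd_prime (Fact.out : p.Prime)).1 h1 with h2 | h2
    · subst h2
      exact absurd rfl (CharP.char_ne_one (𝓞 (AlgebraicClosure K) ⧸ Q) 1)
    · rwa [h2] at hc
  set ι : ZMod p →+* (𝓞 (AlgebraicClosure K) ⧸ Q) :=
    ZMod.castHom (m := p) dvd_rfl (𝓞 (AlgebraicClosure K) ⧸ Q) with hι
  have hmem : ∀ x : 𝓞 (AlgebraicClosure K) ⧸ Q, x ^ p = x → ∃ y, ι y = x := by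
    intro x hx
    have h1 := (Subfield.mem_bot_iff_pow_eq_self (𝓞 (AlgebraicClosure K) ⧸ Q) p).2 hx
    rw [← ZMod.fieldRange_castHom_eq_bot p] at h1
    exact h1
  have hinj : Function.Injective ι := ι.injective
  let red : (F →ₐ[K] AlgebraicClosure K) → 𝓞 F →+* (𝓞 (AlgebraicClosure K) ⧸ Q) := fun i =>
    (Ideal.Quotient.mk Q).comp (oi i)
  have hred : ∀ i a, red i a = Ideal.Quotient.mk Q (oi i a) := fun i a => rfl
  have hredinj : ∀ i j, (∀ a, red i a = red j a) → i = j := by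
    intro i j h
    refine he Q (fun h1 => hev ?_) i j fun a => ?_
    · rw [← hQv]
      exact h1
    · rw [← Ideal.Quotient.mk_eq_mk_iff_sub_mem]
      exact h a
  have hfrob : ∀ i a, (red i a) ^ p =
      red ((σ : AlgebraicClosure K →ₐ[K] AlgebraicClosure K).comp i) a := by
    intro i a
    rw [hred, hred, ← map_pow, Ideal.Quotient.mk_eq_mk_iff_sub_mem, ← smul_oi]
    have := Q.neg_mem (hQ (oi i a))
    rwa [neg_sub] at this
  have hK : ∀ i (a : 𝓞 K), red i (algebraMap (𝓞 K) (𝓞 F) a) = ι (φ a) := by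
    intro i a
    obtain ⟨n, hn⟩ := ZMod.intCast_surjective (φ a)
    have h1 : a - (n : 𝓞 K) ∈ v.asIdeal := by
      rw [← hφ, RingHom.mem_ker, map_sub, map_intCast, hn, sub_self]
    rw [← hQv, Ideal.mem_comap] at h1
    rw [hred, oi_alg, ← hn, map_intCast, ← map_intCast (Ideal.Quotient.mk Q),
      Ideal.Quotient.mk_eq_mk_iff_sub_mem]
    rwa [map_sub, map_intCast] at h1
  have hex : ∀ i : {i : F →ₐ[K] AlgebraicClosure K //
      (σ : AlgebraicClosure K →ₐ[K] AlgebraicClosure K).comp i = i},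
      ∃ ψ : 𝓞 F →+* ZMod p, ∀ a, ι (ψ a) = red i.1 a := by
    rintro ⟨i, hi⟩
    have h1 : ∀ a, (red i a) ^ p = red i a := fun a => by rw [hfrob, hi]
    choose f hf using fun a => hmem _ (h1 a)
    refine ⟨{ toFun := f, map_one' := ?_, map_mul' := ?_, map_zero' := ?_, map_add' := ?_ }, hf⟩
    · apply hinj
      rw [hf, map_one, map_one]
    · intro a b
      apply hinj
      rw [hf, map_mul, map_mul, hf, hf]
    · apply hinj
      rw [hf, map_zero, map_zero]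
    · intro a b
      apply hinj
      rw [hf, map_add, map_add, hf, hf]
  choose T hT using hex
  refine Nat.card_eq_of_bijective (fun i => ⟨T i, ?_⟩) ⟨?_, ?_⟩
  · ext a
    apply hinj
    rw [RingHom.comp_apply, hT, hK]
  · rintro i j hij
    apply Subtype.ext
    refine hredinj _ _ fun a => ?_
    rw [← hT, ← hT]
    have h1 : T i = T j := congrArg Subtype.val hij
    rw [h1]
  · rintro ⟨ψ, hψ⟩
    obtain ⟨i, hi⟩ := exists_emb hQm hQv hφ ψ hψ
    have hred2 : ∀ a, red i a = ι (ψ a) := by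
      intro a
      obtain ⟨n, hn⟩ := ZMod.intCast_surjective (ψ a)
      have h1 : oi i (a - (n : 𝓞 F)) ∈ Q := by
        rw [hi, map_sub, map_intCast, hn, sub_self]
      have h2 : red i (a - (n : 𝓞 F)) = 0 := Ideal.Quotient.eq_zero_iff_mem.2 h1
      rw [map_sub, map_intCast, sub_eq_zero] at h2
      rw [h2, ← hn, map_intCast]
    have hfix : (σ : AlgebraicClosure K →ₐ[K] AlgebraicClosure K).comp i = i := by
      refine hredinj _ _ fun a => ?_
      rw [← hfrob, hred2, ← map_pow, ZMod.pow_card]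
    refine ⟨⟨i, hfix⟩, ?_⟩
    apply Subtype.ext
    ext a
    apply hinj
    change ι (T ⟨i, hfix⟩ a) = ι (ψ a)
    rw [hT, ← hred2]

end

end Pool.Agent.W353.NF
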