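import Pool.Agent.H21.L.R_seed8.W353.NF.Act
import Pool.Agent.H21.L.R_seed8.W353.AB.Core

/-! Sizes over number fields and class functions of the absolute Galois group. -/

set_option autoImplicit false

namespace Pool.Agent.W353.NF

open Complex Filter Topology ComplexConjugate NumberField IsDedekindDomain Asymptotics
  Pool.Agent.W401.Cheb Pool.Agent.W540.BE Pool.Agent.W353.L1
open Pool.Agent.W353.TP (HX sysH push push_abs_le qh qh_abs qh_eq res LL LL_tendsto E_H bdd_isLittleO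
  lam0_sub)
open Pool.Agent.W353.AB (Sy vq)
open Pool.Agent.H921R2.TatePole (kerPrime)
open Pool.Agent.H341R2 (lam lam_tendsto sysK)

section
variable {K : Type} [Field K] [NumberField K]

/-- the prime of a homomorphism to a prime field -/
noncomputable def vx (x : HX K) : HeightOneSpectrum (𝓞 K) := (kerPrime x.1 x.2).1.1

theorem vx_asIdeal (x : HX K) : (vx x).asIdeal = RingHom.ker x.2 := rfl

theorem nm_vx (x : HX K) : nm K (vx x) = (x.1 : ℕ) := Pool.Agent.H341R2.nm_kerPrime x.1 x.2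

theorem EP_eq (ε : ℝ) (φ : HeightOneSpectrum (𝓞 K) → ℝ) : EP (nm K) ε φ = (sysK K).E ε φ := rfl

/-- `X ε` is the mean value of `T Ψ` on the scale `log (1/ε)` -/
def SzH (T : HX K → ℝ) (Ψ : HeightOneSpectrum (𝓞 K) → ℝ) (X : ℝ → ℝ) : Prop :=
  (fun ε => X ε * LL ε - (sysH K).E ε (fun x => T x * Ψ (vx x))) =o[𝓝[>] 0] LL

theorem SzH.add {T : HX K → ℝ} {Ψ Ψ' : HeightOneSpectrum (𝓞 K) → ℝ} {X X' : ℝ → ℝ} {N B B' : ℝ}
    (h : SzH T Ψ X) (h' : SzH T Ψ' X') (hT : ∀ x, |T x| ≤ N) (hB : ∀ v, |Ψ v| ≤ B)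
    (hB' : ∀ v, |Ψ' v| ≤ B') :
    SzH T (fun v => Ψ v + Ψ' v) (fun ε => X ε + X' ε) := by
  unfold SzH at *
  refine (h.add h').congr' ?_ (EventuallyEq.refl _ _)
  filter_upwards [self_mem_nhdsWithin] with ε hε
  have hε' : (0 : ℝ) < ε := hε
  have hN : 0 ≤ N := (abs_nonneg _).trans (hT ((sysH K).nonempty.some))
  have e1 : (sysH K).E ε (fun x => T x * (Ψ (vx x) + Ψ' (vx x))) =
      (sysH K).E ε (fun x => T x * Ψ (vx x)) + (sysH K).E ε (fun x => T x * Ψ' (vx x)) := by
    rw [← (sysH K).E_add hε' (B := N * B) (B' := N * B')]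
    · congr 1
      funext x
      ring
    · intro x
      rw [abs_mul]
      exact mul_le_mul (hT x) (hB _) (abs_nonneg _) hN
    · intro x
      rw [abs_mul]
      exact mul_le_mul (hT x) (hB' _) (abs_nonneg _) hN
  rw [e1]
  ring

theorem SzH.const_mul {T : HX K → ℝ} {Ψ : HeightOneSpectrum (𝓞 K) → ℝ} {X : ℝ → ℝ}
    (h : SzH T Ψ X) (c : ℝ) : SzH T (fun v => c * Ψ v) (fun ε => c * X ε) := by
  unfold SzH at *
  refine (h.const_mul_left c).congr' ?_ (EventuallyEq.refl _ _)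
  filter_upwards with ε
  have e1 : (sysH K).E ε (fun x => T x * (c * Ψ (vx x))) =
      c * (sysH K).E ε (fun x => T x * Ψ (vx x)) := by
    rw [← (sysH K).E_const_mul]
    congr 1
    funext x
    ring
  rw [e1]
  ring

theorem SzH.congr {T : HX K → ℝ} {Ψ Ψ' : HeightOneSpectrum (𝓞 K) → ℝ} {X X' : ℝ → ℝ}
    (h : SzH T Ψ X) (h1 : ∀ v, Ψ v = Ψ' v) (h2 : ∀ ε, X ε = X' ε) : SzH T Ψ' X' := by
  have e1 : Ψ = Ψ' := funext h1
  have e2 : X = X' := funext h2
  rw [← e1, ← e2]
  exact h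

theorem SzH.zero (T : HX K → ℝ) : SzH T (fun _ => 0) (fun _ => 0) := by
  unfold SzH
  have e1 : ∀ ε, (sysH K).E ε (fun x => T x * (0 : ℝ)) = 0 := by
    intro ε
    unfold Pool.Agent.H341R2.NormSys.E
    refine (tsum_congr fun x => ?_).trans tsum_zero
    change (T x * (0 : ℝ)) * ((sysH K).N x : ℝ) ^ (-(1 + ε)) = 0
    rw [mul_zero, zero_mul]
  simp only [e1, zero_mul, sub_zero]
  exact isLittleO_zero _ _

/-- finite linear combinations -/
theorem SzH.sum {T : HX K → ℝ} {κ : Type*} (S : Finset κ)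
    {Ψ : κ → HeightOneSpectrum (𝓞 K) → ℝ} {X : κ → ℝ → ℝ} {N : ℝ} {B : κ → ℝ}
    (h : ∀ k ∈ S, SzH T (Ψ k) (X k)) (hT : ∀ x, |T x| ≤ N) (hB : ∀ k ∈ S, ∀ v, |Ψ k v| ≤ B k)
    (c : κ → ℝ) :
    SzH T (fun v => ∑ k ∈ S, c k * Ψ k v) (fun ε => ∑ k ∈ S, c k * X k ε) := by
  classical
  induction S using Finset.induction_on with
  | empty =>
    simp only [Finset.sum_empty]
    exact SzH.zero T
  | insert a S ha ih =>
    have h1 := ih (fun k hk => h k (Finset.mem_insert_of_mem hk))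
      (fun k hk => hB k (Finset.mem_insert_of_mem hk))
    have h2 := (h a (Finset.mem_insert_self a S)).const_mul (c a)
    refine (h2.add h1 hT (B := |c a| * B a) (B' := ∑ k ∈ S, |c k| * B k) ?_ ?_).congr ?_ ?_
    · intro v
      rw [abs_mul]
      exact mul_le_mul_of_nonneg_left (hB a (Finset.mem_insert_self a S) v) (abs_nonneg _)
    · intro v
      refine (Finset.abs_sum_le_sum_abs _ _).trans (Finset.sum_le_sum fun k hk => ?_)
      rw [abs_mul]
      exact mul_le_mul_of_nonneg_left (hB k (Finset.mem_insert_of_mem hk) v) (abs_nonneg _)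
    · intro v
      rw [Finset.sum_insert ha]
    · intro ε
      rw [Finset.sum_insert ha]

/-- bounds for sums over the homomorphisms in terms of sums over the primes -/
theorem EH_le {φ : HX K → ℝ} {g : HeightOneSpectrum (𝓞 K) → ℝ} {B : ℝ}
    (hg : ∀ v, |g v| ≤ B) (h : ∀ x, |φ x| ≤ g (vx x)) :
    ∃ C : ℝ, ∀ ε : ℝ, 0 < ε → |(sysH K).E ε φ| ≤ EP (nm K) ε g + C := by
  refine ⟨B * Module.finrank ℚ K * Pool.Agent.H921R2.TatePole.C0, fun ε hε => ?_⟩
  have h1 := E_H hg hε
  have h2 : |(sysH K).E ε φ| ≤ (sysH K).E ε (fun x => g (vx x)) := by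
    have hs2 := (sysH K).summable_E hε (φ := fun x => g (vx x)) (B := B) (fun x => hg _)
    unfold Pool.Agent.H341R2.NormSys.E
    rw [← Real.norm_eq_abs]
    refine tsum_of_norm_bounded hs2.hasSum fun x => ?_
    rw [Real.norm_eq_abs, abs_mul, abs_of_nonneg ((sysH K).w_nonneg ε x)]
    exact mul_le_mul_of_nonneg_right (h x) ((sysH K).w_nonneg ε x)
  have h3 := (abs_le.1 h1).1
  rw [EP_eq]
  have h4 : (sysH K).E ε (fun x => g (vx x)) = (sysH K).E ε (fun x : HX K =>
    g (kerPrime x.1 x.2).1.1) := rfl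
  rw [h4] at h2
  linarith

/-- **Bounds for sizes.** -/
theorem size_le {T : HX K → ℝ} {Ψ : HeightOneSpectrum (𝓞 K) → ℝ} {X : ℝ → ℝ} {N B A : ℝ}
    (hN : 0 ≤ N) (hT : ∀ x, |T x| ≤ N) (hB : ∀ v, |Ψ v| ≤ B) (hS : SzH T Ψ X)
    (hA : ∀ η : ℝ, 0 < η → ∀ᶠ ε : ℝ in 𝓝[>] 0, (EP (nm K) ε fun v => |Ψ v|) / lam ε ≤ A + η)
    {η : ℝ} (hη : 0 < η) : ∀ᶠ ε : ℝ in 𝓝[>] 0, |X ε| ≤ N * A + η := by
  obtain ⟨C, hC⟩ := EH_le (K := K) (φ := fun x => T x * Ψ (vx x)) (g := fun v => N * |Ψ v|)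
    (B := N * B) (fun v => by
      rw [abs_mul, abs_abs, abs_of_nonneg hN]
      exact mul_le_mul_of_nonneg_left (hB v) hN) (fun x => by
      rw [abs_mul]
      exact mul_le_mul_of_nonneg_right (hT x) (abs_nonneg _))
  have h1 := hA (η / (4 * (N + 1))) (by positivity)
  have h2 := isLittleO_iff.1 hS (c := η / 4) (by positivity)
  have h3 := isLittleO_iff.1 (lam0_sub) (c := η / (4 * (N * |A| + η + 1))) (by positivity)
  filter_upwards [h1, h2, h3, LL_tendsto.eventually_ge_atTop (4 * (|C| + 1) / η),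
    lam_tendsto.eventually_gt_atTop 0, self_mem_nhdsWithin] with ε g1 g2 g3 g4 g5 g6
  have hε : (0 : ℝ) < ε := g6
  have hL : 0 < LL ε := lt_of_lt_of_le (by positivity) g4
  rw [Real.norm_eq_abs, Real.norm_eq_abs, abs_of_pos hL] at g2 g3
  have g7 := hC ε hε
  have e1 : EP (nm K) ε (fun v => N * |Ψ v|) = N * EP (nm K) ε fun v => |Ψ v| :=
    EP_const_mul N _
  rw [e1] at g7
  rw [div_le_iff₀ g5] at g1
  have g8 : N * EP (nm K) ε (fun v => |Ψ v|) ≤ N * ((A + η / (4 * (N + 1))) * lam ε) :=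
    mul_le_mul_of_nonneg_left g1 hN
  have g9 : lam ε ≤ LL ε + η / (4 * (N * |A| + η + 1)) * LL ε := by
    have := (abs_le.1 g3).2
    linarith
  have g10 : |C| + 1 ≤ η / 4 * LL ε := by
    rw [div_le_iff₀ hη] at g4
    linarith
  have g11 : |X ε| * LL ε ≤ (N * A + η) * LL ε := by
    have e2 : |X ε| * LL ε = |X ε * LL ε| := by rw [abs_mul, abs_of_pos hL]
    rw [e2]
    have g12 : |X ε * LL ε| ≤ |(sysH K).E ε (fun x => T x * Ψ (vx x))| + η / 4 * LL ε := by
      have := abs_sub_abs_le_abs_sub (X ε * LL ε) ((sysH K).E ε (fun x => T x * Ψ (vx x)))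
      linarith
    have g13 : C ≤ η / 4 * LL ε := by
      have := le_abs_self C
      linarith
    -- the main term
    have g14 : N * ((A + η / (4 * (N + 1))) * lam ε) ≤ (N * A + η / 2) * LL ε := by
      have k1 : N * (η / (4 * (N + 1))) ≤ η / 4 := by
        rw [mul_div_assoc', div_le_div_iff₀ (by positivity) (by norm_num)]
        nlinarith
      have k0 : 0 ≤ N * (η / (4 * (N + 1))) := by positivity
      have k2 : N * ((A + η / (4 * (N + 1))) * lam ε) =
          (N * A) * lam ε + N * (η / (4 * (N + 1))) * lam ε := by ring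
      have k3 : N * (η / (4 * (N + 1))) * lam ε ≤
          η / 4 * (LL ε + η / (4 * (N * |A| + η + 1)) * LL ε) :=
        mul_le_mul k1 g9 g5.le (by positivity)
      have k4 : (N * A) * lam ε ≤ (N * A) * LL ε + N * |A| *
          (η / (4 * (N * |A| + η + 1)) * LL ε) := by
        have k5 : (N * A) * (lam ε - LL ε) ≤ |N * A| * |lam ε - LL ε| := by
          rw [← abs_mul]
          exact le_abs_self _
        have k6 : |N * A| = N * |A| := by rw [abs_mul, abs_of_nonneg hN]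
        rw [k6] at k5
        have k7 : N * |A| * |lam ε - LL ε| ≤ N * |A| * (η / (4 * (N * |A| + η + 1)) * LL ε) :=
          mul_le_mul_of_nonneg_left g3 (by positivity)
        linarith
      have k8 : N * |A| * (η / (4 * (N * |A| + η + 1))) +
          η / 4 * (η / (4 * (N * |A| + η + 1))) ≤ η / 4 := by
        have e3 : N * |A| * (η / (4 * (N * |A| + η + 1))) +
          η / 4 * (η / (4 * (N * |A| + η + 1))) =
          ((N * |A| + η / 4) * η) / (4 * (N * |A| + η + 1)) := by ring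
        rw [e3, div_le_div_iff₀ (by positivity) (by norm_num)]
        have : 0 ≤ N * |A| := by positivity
        nlinarith
      have k9 := mul_le_mul_of_nonneg_right k8 hL.le
      rw [k2]
      have e4 : (N * |A| * (η / (4 * (N * |A| + η + 1))) +
          η / 4 * (η / (4 * (N * |A| + η + 1)))) * LL ε =
          N * |A| * (η / (4 * (N * |A| + η + 1)) * LL ε) +
          η / 4 * (η / (4 * (N * |A| + η + 1)) * LL ε) := by ring
      rw [e4] at k9
      have e5 : η / 4 * (LL ε + η / (4 * (N * |A| + η + 1)) * LL ε) =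
          η / 4 * LL ε + η / 4 * (η / (4 * (N * |A| + η + 1)) * LL ε) := by ring
      rw [e5] at k3
      have e6 : (N * A + η / 2) * LL ε = N * A * LL ε + η / 4 * LL ε + η / 4 * LL ε := by ring
      rw [e6]
      linarith
    have e7 : (N * A + η) * LL ε = (N * A + η / 2) * LL ε + η / 4 * LL ε + η / 4 * LL ε := by
      ring
    rw [e7]
    have g15 := g7.trans (add_le_add (g8.trans g14) (le_refl C))
    exact (g12.trans (add_le_add g15 (le_refl _))).trans (by linarith)
  exact le_of_mul_le_mul_right g11 hL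

end

end Pool.Agent.W353.NF
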